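import Pool.Agent.Helper44.BB.Stmts

set_option autoImplicit false

/-! # Smooth numbers (module SMO) -/

namespace Pool.Agent.Helper44.BB

open Finset

theorem smo_mem_pr {Y : ℝ} {p : ℕ} : p ∈ pr Y ↔ p.Prime ∧ p ≤ ⌊Y⌋₊ := by
  unfold pr
  rw [mem_filter, mem_range, Nat.lt_succ_iff]
  exact ⟨fun h => ⟨h.2, h.1⟩, fun h => ⟨h.2, h.1⟩⟩

theorem st_SMO (hRK : ST_RK) : ST_SMO := by
  intro x Y A hx hY hA
  have he1 : (1 : ℝ) < Real.exp 1 := by
    have := Real.add_one_lt_exp (one_ne_zero : (1 : ℝ) ≠ 0)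
    linarith
  have hY1 : 1 < Y := lt_of_lt_of_le he1 hY
  have hY0 : 0 < Y := by linarith
  have hlog : 1 ≤ Real.log Y := by
    rw [Real.le_log_iff_exp_le hY0]
    exact hY
  have hlog0 : 0 < Real.log Y := by linarith
  have hd1 : 1 / Real.log Y ≤ 1 := by
    rw [div_le_one hlog0]
    exact hlog
  have h1 : ∀ a ∈ A, (1 : ℝ) ≤ x ^ (1 - 1 / Real.log Y) * (a : ℝ) ^ (1 / Real.log Y - 1) := by
    intro a ha
    obtain ⟨hsq, hax, _⟩ := hA a ha
    have ha0 : (0 : ℝ) < a := Nat.cast_pos.2 hsq.ne_zero.bot_lt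
    have h2 : (1 : ℝ) ≤ x / a := by
      rw [le_div_iff₀ ha0, one_mul]
      exact hax
    have h3 : (1 : ℝ) ≤ (x / a) ^ (1 - 1 / Real.log Y) :=
      Real.one_le_rpow h2 (by linarith)
    rw [Real.div_rpow hx.le ha0.le] at h3
    have h4 : (a : ℝ) ^ (1 / Real.log Y - 1) = ((a : ℝ) ^ (1 - 1 / Real.log Y))⁻¹ := by
      rw [← Real.rpow_neg ha0.le]
      congr 1
      ring
    rw [h4, ← div_eq_mul_inv]
    exact h3
  have h2 : (A.card : ℝ) ≤ ∑ a ∈ A, x ^ (1 - 1 / Real.log Y) * (a : ℝ) ^ (1 / Real.log Y - 1) := by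
    have := sum_le_sum h1
    rw [sum_const, nsmul_eq_mul, mul_one] at this
    exact this
  rw [← mul_sum] at h2
  have h3 : ∑ a ∈ A, (a : ℝ) ^ (1 / Real.log Y - 1) ≤
      ∑ T ∈ (pr Y).powerset, ((∏ p ∈ T, p : ℕ) : ℝ) ^ (1 / Real.log Y - 1) := by
    have hinj : Set.InjOn (fun a : ℕ => a.primeFactors) (A : Set ℕ) := by
      intro a ha b hb hab
      have e1 := Nat.prod_primeFactors_of_squarefree (hA a ha).1
      have e2 := Nat.prod_primeFactors_of_squarefree (hA b hb).1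
      rw [← e1, ← e2]
      exact congrArg (fun s : Finset ℕ => ∏ p ∈ s, p) hab
    have h4 : ∑ a ∈ A, (a : ℝ) ^ (1 / Real.log Y - 1) =
        ∑ T ∈ A.image (fun a : ℕ => a.primeFactors),
          ((∏ p ∈ T, p : ℕ) : ℝ) ^ (1 / Real.log Y - 1) := by
      rw [sum_image hinj]
      refine sum_congr rfl fun a ha => ?_
      rw [Nat.prod_primeFactors_of_squarefree (hA a ha).1]
    rw [h4]
    refine sum_le_sum_of_subset_of_nonneg ?_ fun T _ _ => Real.rpow_nonneg (Nat.cast_nonneg _) _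
    intro T hT
    obtain ⟨a, ha, rfl⟩ := mem_image.1 hT
    rw [mem_powerset]
    intro p hp
    have hpp := Nat.prime_of_mem_primeFactors hp
    exact smo_mem_pr.2 ⟨hpp, Nat.le_floor ((hA a ha).2.2 p hpp (Nat.dvd_of_mem_primeFactors hp))⟩
  have h5 := hRK (pr Y) Y (fun p hp => ⟨(smo_mem_pr.1 hp).1,
    (Nat.le_floor_iff hY0.le).1 (smo_mem_pr.1 hp).2⟩) hY1
  have h6 : x ^ (1 - 1 / Real.log Y) = x * Real.exp (-(Real.log x / Real.log Y)) := by
    rw [sub_eq_add_neg, Real.rpow_add hx, Real.rpow_one, Real.rpow_def_of_pos hx]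
    congr 2
    ring
  have h7 : 0 ≤ x ^ (1 - 1 / Real.log Y) := Real.rpow_nonneg hx.le _
  calc (A.card : ℝ) ≤ x ^ (1 - 1 / Real.log Y) * ∑ a ∈ A, (a : ℝ) ^ (1 / Real.log Y - 1) := h2
    _ ≤ x ^ (1 - 1 / Real.log Y) * Real.exp (Real.exp 1 * ∑ p ∈ pr Y, 1 / (p : ℝ)) :=
        mul_le_mul_of_nonneg_left (h3.trans h5) h7
    _ = x * Real.exp (-(Real.log x / Real.log Y) + Real.exp 1 * ∑ p ∈ pr Y, 1 / (p : ℝ)) := by
        rw [h6, Real.exp_add, mul_assoc]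

end Pool.Agent.Helper44.BB
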